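import Pool.Agent.H141.PF.Game

/-!
# Certificates for the finite game and their soundness

A lemma `l` of a certificate describes a situation in which the walker is a sink of the inner directions:
`l.S` is the bit mask of its improving outer directions, `l.recs` are earlier records (relative position,
superset of the improving outer directions), all of them sinks of the inner directions.  The relative position only matters in the improving directions of the record.  The strategy:
make a step in the outer direction `l.j`, then solve the inner directions together with the outer directions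
in `l.J` while walking towards the vertex at relative position `l.t`.  For every possible outcome there is
a lemma with smaller budget, up to a permutation of the `k` outer directions.
-/

namespace Pool.Agent.H141.PF

/-- Lemmas of a certificate. -/
structure Lem where
  q : ℕ
  S : ℕ
  J : ℕ
  t : ℕ
  j : ℕ
  recs : List (ℕ × ℕ)
  rows : List (List (ℕ × ℕ × ℕ))

/-- Binary trees, used as arrays. -/
inductive BT (α : Type) where
  | nil : BT α
  | leaf : α → BT α
  | node : BT α → BT α → BT α

namespace BT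

variable {α : Type}

/-- Look up an index. -/
def get? : BT α → ℕ → Option α
  | nil, _ => none
  | leaf a, _ => some a
  | node l r, i => if i % 2 = 0 then l.get? (i / 2) else r.get? (i / 2)

/-- All entries satisfy `p`. -/
def all (p : α → Bool) : BT α → Bool
  | nil => true
  | leaf a => p a
  | node l r => l.all p && r.all p

theorem of_get? {p : α → Bool} : ∀ {t : BT α} {i : ℕ} {a : α}, t.all p = true → t.get? i = some a →
    p a = true
  | nil, _, _, _, h => by simp [get?] at h
  | leaf b, i, a, hp, h => by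
      simp only [get?, Option.some.injEq] at h
      subst h; exact hp
  | node l r, i, a, hp, h => by
      simp only [all, Bool.and_eq_true] at hp
      simp only [get?] at h
      split_ifs at h
      · exact of_get? hp.1 h
      · exact of_get? hp.2 h

end BT

/-- Parameters of a certificate: number of outer directions, costs of the queries, tables. -/
structure Cfg where
  k : ℕ
  smax : ℕ
  cost : ℕ → ℕ
  disj : ℕ
  sup : ℕ
  perms : BT (List ℕ × ℕ)
  tree : BT Lem

/-- Number of elements of the bit mask `J`. -/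
def pc (k J : ℕ) : ℕ := ((List.range k).filter (fun i => J.testBit i)).length

/-- Application of a permutation given by its table. -/
def look (k T m : ℕ) : ℕ := (T >>> (k * m)) % 2 ^ k

/-- The masks in the table are correct. -/
def tablesOK (C : Cfg) : Bool :=
  (List.range (2 ^ C.k)).all (fun F => (List.range (2 ^ C.k)).all (fun s =>
    ((C.disj >>> (2 ^ C.k * F)).testBit s == ((s &&& F) == 0)) &&
    ((C.sup >>> (2 ^ C.k * F)).testBit s == ((F &&& s) == F))))

/-- The permutation tables are correct. -/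
def permOK (k : ℕ) (p : List ℕ × ℕ) : Bool :=
  p.1.length == k && p.1.all (· < k) && decide p.1.Nodup &&
  (List.range (2 ^ k)).all (fun m => (List.range k).all (fun i =>
    (look k p.2 m).testBit i == m.testBit (p.1.getD i 0)))

/-- Bits still possible after the records. -/
def sieve (C : Cfg) (w : ℕ) (R : ℕ) : List (ℕ × ℕ) → ℕ
  | [] => R
  | (r, S) :: L => sieve C w (R ^^^ (R &&& (C.sup >>> (2 ^ C.k * ((r ^^^ w) &&& S))))) L

/-- The records after a move of the walker by `w`. -/
def shiftRecs (w : ℕ) (L : List (ℕ × ℕ)) : List (ℕ × ℕ) := L.map (fun r => (r.1 ^^^ w, r.2))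

/-- The reply `(s, child, perm)` at position `w` is covered by the child. -/
def repOK (C : Cfg) (l : Lem) (w : ℕ) (a : ℕ × ℕ × ℕ) : Bool :=
  match C.tree.get? a.2.1, C.perms.get? a.2.2 with
  | some c, some p =>
    c.S == look C.k p.2 a.1 && decide (c.q + C.cost (pc C.k l.J) ≤ l.q) &&
    c.recs.all (fun r' => (shiftRecs w ((0, l.S) :: l.recs)).any (fun r =>
      (r'.1 &&& look C.k p.2 r.2) == (look C.k p.2 r.1 &&& look C.k p.2 r.2) &&
      (look C.k p.2 r.2 &&& r'.2) == look C.k p.2 r.2))
  | _, _ => false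

/-- All the bits of `R` are covered by correct replies. -/
def rowOK (C : Cfg) (l : Lem) (w : ℕ) : ℕ → List (ℕ × ℕ × ℕ) → Bool
  | R, [] => R == 0
  | R, a :: L => repOK C l w a && rowOK C l w (R ^^^ (R &&& (1 <<< a.1))) L

/-- The positions at which the walker can end. -/
def ends (C : Cfg) (l : Lem) : List ℕ :=
  (List.range (2 ^ C.k)).filter (fun w => w.testBit l.j && (w &&& (l.J ||| l.t)) == w)

/-- The possible sets of improving directions at the position `w`. -/
def startRow (C : Cfg) (l : Lem) (w : ℕ) : ℕ :=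
  sieve C w ((C.disj >>> (2 ^ C.k * (l.J ||| (l.t ^^^ (l.t &&& w))))) &&& (2 ^ (2 ^ C.k) - 2))
    ((0, l.S) :: l.recs)

/-- All the positions are covered. -/
def rowsOK (C : Cfg) (l : Lem) : List ℕ → List (List (ℕ × ℕ × ℕ)) → Bool
  | [], _ => true
  | w :: W, [] => startRow C l w == 0 && rowsOK C l W []
  | w :: W, r :: rs => rowOK C l w (startRow C l w) r && rowsOK C l W rs

/-- The lemma is correct, provided the lemmas it refers to are. -/
def lemOK (C : Cfg) (l : Lem) : Bool :=
  decide (l.j < C.k) && l.S.testBit l.j && l.t.testBit l.j && (l.J &&& l.t) == 0 &&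
  decide (l.J < 2 ^ C.k) && decide (l.t < 2 ^ C.k) &&
  decide (pc C.k l.J ≤ C.smax) && decide (C.cost (pc C.k l.J) ≤ l.q) &&
  l.recs.all (fun r => decide (r.1 < 2 ^ C.k) && decide (r.2 < 2 ^ C.k)) &&
  rowsOK C l (ends C l) l.rows

section sound

variable {n : ℕ}

/-- The mask of the outer directions of the set `X`. -/
def mk {k : ℕ} (e : Fin k → Fin n) (X : Finset (Fin n)) : ℕ := Nat.ofBits (fun i => decide (e i ∈ X))

/-- The relative position of two vertices. -/
def rel {k : ℕ} (e : Fin k → Fin n) (x y : Fin n → Bool) : ℕ :=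
  Nat.ofBits (fun i => x (e i) ^^ y (e i))

theorem mk_testBit {k : ℕ} (e : Fin k → Fin n) (X : Finset (Fin n)) (i : Fin k) :
    (mk e X).testBit i = decide (e i ∈ X) := by
  rw [mk, Nat.testBit_ofBits_lt _ _ i.2]

theorem rel_testBit {k : ℕ} (e : Fin k → Fin n) (x y : Fin n → Bool) (i : Fin k) :
    (rel e x y).testBit i = (x (e i) ^^ y (e i)) := by
  rw [rel, Nat.testBit_ofBits_lt _ _ i.2]

theorem mk_lt {k : ℕ} (e : Fin k → Fin n) (X : Finset (Fin n)) : mk e X < 2 ^ k :=
  Nat.ofBits_lt_two_pow _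

theorem rel_lt {k : ℕ} (e : Fin k → Fin n) (x y : Fin n → Bool) : rel e x y < 2 ^ k :=
  Nat.ofBits_lt_two_pow _

theorem eq_of_bits {k a b : ℕ} (ha : a < 2 ^ k) (hb : b < 2 ^ k)
    (h : ∀ i : Fin k, a.testBit i = b.testBit i) : a = b := by
  apply Nat.eq_of_testBit_eq
  intro i
  by_cases hi : i < k
  · exact h ⟨i, hi⟩
  · have hk : 2 ^ k ≤ 2 ^ i := Nat.pow_le_pow_right (by norm_num) (not_lt.1 hi)
    rw [Nat.testBit_lt_two_pow (lt_of_lt_of_le ha hk), Nat.testBit_lt_two_pow (lt_of_lt_of_le hb hk)]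

theorem rel_xor {k : ℕ} (e : Fin k → Fin n) (x y z : Fin n → Bool) :
    rel e y z = rel e x z ^^^ rel e x y := by
  apply eq_of_bits (rel_lt e y z) (Nat.xor_lt_two_pow (rel_lt e x z) (rel_lt e x y))
  intro i
  rw [Nat.testBit_xor, rel_testBit, rel_testBit, rel_testBit]
  cases x (e i) <;> cases y (e i) <;> cases z (e i) <;> rfl

theorem look_lt (k T m : ℕ) : look k T m < 2 ^ k := Nat.mod_lt _ (by positivity)

theorem and_eq_left_iff {k a b : ℕ} (ha : a < 2 ^ k) :
    a &&& b = a ↔ ∀ i : Fin k, a.testBit i = true → b.testBit i = true := by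
  constructor
  · intro h i hi
    have := congrArg (fun x => x.testBit i) h
    simp only [Nat.testBit_and, hi, Bool.true_and] at this
    exact this
  · intro h
    apply eq_of_bits (lt_of_le_of_lt Nat.and_le_left ha) ha
    intro i
    rw [Nat.testBit_and]
    cases hi : a.testBit i
    · rfl
    · rw [h i hi]; rfl

theorem and_eq_zero_iff' {k a b : ℕ} (ha : a < 2 ^ k) :
    a &&& b = 0 ↔ ∀ i : Fin k, a.testBit i = true → b.testBit i = false := by
  constructor
  · intro h i hi
    have := congrArg (fun x => x.testBit i) h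
    simp only [Nat.testBit_and, hi, Bool.true_and, Nat.zero_testBit] at this
    exact this
  · intro h
    apply eq_of_bits (lt_of_le_of_lt Nat.and_le_left ha) (by positivity)
    intro i
    rw [Nat.testBit_and, Nat.zero_testBit]
    cases hi : a.testBit i
    · rfl
    · rw [h i hi]; rfl

theorem perm_spec {k : ℕ} {p : List ℕ × ℕ} (h : permOK k p = true) :
    ∃ π : Fin k → Fin k, Function.Injective π ∧ ∀ m < 2 ^ k, ∀ i : Fin k,
      (look k p.2 m).testBit i = m.testBit (π i) := by
  simp only [permOK, Bool.and_eq_true, beq_iff_eq, List.all_eq_true, decide_eq_true_eq,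
    List.mem_range] at h
  obtain ⟨⟨⟨hlen, hlt⟩, hnd⟩, htab⟩ := h
  have hget : ∀ i : Fin k, p.1.getD i 0 < k := by
    intro i
    have hi : (i : ℕ) < p.1.length := by rw [hlen]; exact i.2
    rw [List.getD_eq_getElem _ _ hi]
    exact hlt _ (List.getElem_mem hi)
  refine ⟨fun i => ⟨p.1.getD i 0, hget i⟩, ?_, ?_⟩
  · intro a b hab
    have ha : (a : ℕ) < p.1.length := by rw [hlen]; exact a.2
    have hb : (b : ℕ) < p.1.length := by rw [hlen]; exact b.2
    have h1 : p.1.getD a 0 = p.1.getD b 0 := congrArg Fin.val hab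
    rw [List.getD_eq_getElem _ _ ha, List.getD_eq_getElem _ _ hb] at h1
    exact Fin.ext ((List.Nodup.getElem_inj_iff hnd).1 h1)
  · intro m hm i
    exact htab m hm i i.2

variable (C : Cfg)

theorem sup_spec (hC : tablesOK C = true) {D s : ℕ} (hD : D < 2 ^ C.k) (hs : s < 2 ^ C.k) :
    (C.sup >>> (2 ^ C.k * D)).testBit s = ((D &&& s) == D) := by
  simp only [tablesOK, List.all_eq_true, List.mem_range, Bool.and_eq_true, beq_iff_eq] at hC
  exact (hC D hD s hs).2

theorem disj_spec (hC : tablesOK C = true) {D s : ℕ} (hD : D < 2 ^ C.k) (hs : s < 2 ^ C.k) :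
    (C.disj >>> (2 ^ C.k * D)).testBit s = ((s &&& D) == 0) := by
  simp only [tablesOK, List.all_eq_true, List.mem_range, Bool.and_eq_true, beq_iff_eq] at hC
  exact (hC D hD s hs).1

theorem sieve_spec (hC : tablesOK C = true) {w s : ℕ} (hs : s < 2 ^ C.k) :
    ∀ (L : List (ℕ × ℕ)) (R : ℕ), R.testBit s = true →
      (∀ r ∈ L, (r.1 ^^^ w) &&& r.2 < 2 ^ C.k ∧
        ¬ (((r.1 ^^^ w) &&& r.2) &&& s = (r.1 ^^^ w) &&& r.2)) →
      (sieve C w R L).testBit s = true := by
  intro L
  induction L with
  | nil => intro R hR _; exact hR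
  | cons a L ih =>
    intro R hR h
    obtain ⟨r, S⟩ := a
    rw [sieve]
    apply ih
    · have h1 := h (r, S) List.mem_cons_self
      rw [Nat.testBit_xor, Nat.testBit_and, sup_spec C hC h1.1 hs, hR]
      have : ((((r ^^^ w) &&& S) &&& s) == ((r ^^^ w) &&& S)) = false := by
        rw [beq_eq_false_iff_ne]; exact h1.2
      rw [this]; rfl
    · intro r' hr'; exact h r' (List.mem_cons_of_mem _ hr')

theorem startRow_spec (hC : tablesOK C = true) (l : Lem) {w s : ℕ} (hs : s < 2 ^ C.k) (hs0 : s ≠ 0)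
    (hf : l.J ||| (l.t ^^^ (l.t &&& w)) < 2 ^ C.k)
    (hsf : s &&& (l.J ||| (l.t ^^^ (l.t &&& w))) = 0)
    (h : ∀ r ∈ (0, l.S) :: l.recs, (r.1 ^^^ w) &&& r.2 < 2 ^ C.k ∧
        ¬ (((r.1 ^^^ w) &&& r.2) &&& s = (r.1 ^^^ w) &&& r.2)) :
    (startRow C l w).testBit s = true := by
  rw [startRow]
  apply sieve_spec C hC hs _ _ _ h
  rw [Nat.testBit_and, disj_spec C hC hf hs, hsf]
  have h2 : (2 ^ (2 ^ C.k) - 2).testBit s = true := by
    have h1 : (1 : ℕ) < 2 ^ (2 ^ C.k) := Nat.one_lt_two_pow (by positivity)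
    rw [Nat.testBit_two_pow_sub_succ h1]
    have h3 : Nat.testBit 1 s = false := by
      apply Nat.testBit_lt_two_pow
      exact Nat.one_lt_two_pow hs0
    rw [h3]; simpa using hs
  rw [h2]; rfl

theorem rowOK_spec (l : Lem) (w : ℕ) : ∀ (L : List (ℕ × ℕ × ℕ)) (R s : ℕ), rowOK C l w R L = true →
    R.testBit s = true → ∃ a ∈ L, a.1 = s ∧ repOK C l w a = true := by
  intro L
  induction L with
  | nil =>
    intro R s h hR
    simp only [rowOK, beq_iff_eq] at h
    rw [h] at hR; simp at hR
  | cons a L ih =>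
    intro R s h hR
    simp only [rowOK, Bool.and_eq_true] at h
    by_cases ha : a.1 = s
    · exact ⟨a, List.mem_cons_self, ha, h.1⟩
    · obtain ⟨b, hb, hb1, hb2⟩ := ih _ s h.2 (by
        rw [Nat.testBit_xor, Nat.testBit_and, hR]
        have : (1 <<< a.1).testBit s = false := by
          rw [Nat.one_shiftLeft, Nat.testBit_two_pow]; simpa using ha
        rw [this]; rfl)
      exact ⟨b, List.mem_cons_of_mem _ hb, hb1, hb2⟩

theorem rowsOK_spec (l : Lem) : ∀ (W : List ℕ) (rs : List (List (ℕ × ℕ × ℕ))),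
    rowsOK C l W rs = true → ∀ w ∈ W, ∀ s, (startRow C l w).testBit s = true →
      ∃ a : ℕ × ℕ × ℕ, a.1 = s ∧ repOK C l w a = true := by
  intro W
  induction W with
  | nil => intro rs _ w hw; simp at hw
  | cons v W ih =>
    intro rs h w hw s hs
    cases rs with
    | nil =>
      simp only [rowsOK, Bool.and_eq_true, beq_iff_eq] at h
      rcases List.mem_cons.1 hw with rfl | hw
      · rw [h.1] at hs; simp at hs
      · exact ih [] h.2 w hw s hs
    | cons r rs =>
      simp only [rowsOK, Bool.and_eq_true] at h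
      rcases List.mem_cons.1 hw with rfl | hw
      · obtain ⟨a, _, ha1, ha2⟩ := rowOK_spec C l w r _ s h.1 hs
        exact ⟨a, ha1, ha2⟩
      · exact ih rs h.2 w hw s hs

theorem card_pc (k J : ℕ) : (Finset.univ.filter (fun i : Fin k => J.testBit i = true)).card = pc k J := by
  classical
  have h1 : (Finset.univ.filter (fun i : Fin k => J.testBit i = true)).card =
      ((Finset.range k).filter (fun i => J.testBit i = true)).card := by
    apply Finset.card_bij (fun (i : Fin k) _ => (i : ℕ))
    · intro i hi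
      simp only [Finset.mem_filter, Finset.mem_univ, true_and] at hi
      simp only [Finset.mem_filter, Finset.mem_range]
      exact ⟨i.2, hi⟩
    · intro a _ b _ h; exact Fin.ext h
    · intro b hb
      simp only [Finset.mem_filter, Finset.mem_range] at hb
      exact ⟨⟨b, hb.1⟩, by simp [hb.2], rfl⟩
  rw [h1, pc]
  have h2 : ((Finset.range k).filter (fun i => J.testBit i = true)) =
      (List.range k |>.filter (fun i => J.testBit i)).toFinset := by
    ext i; simp
  rw [h2, List.toFinset_card_of_nodup (List.Nodup.filter _ List.nodup_range)]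

/-- Soundness of certificates. -/
theorem lem_sound (hC : tablesOK C = true) (hP : C.perms.all (permOK C.k) = true)
    (hL : C.tree.all (lemOK C) = true) (hcost : ∀ s, 0 < C.cost s) (z : ℝ) (hz : 0 ≤ z)
    (E I : Finset (Fin n))
    (hS : ∀ s ≤ C.smax, ∀ D : Finset (Fin n), D.card = I.card + s →
      ∃ T : ℕ, Solve D T ∧ (T : ℝ) + C.k ≤ C.cost s * z) :
    ∀ (Q : ℕ) (l : Lem), (∃ i, C.tree.get? i = some l) → l.q = Q →
      ∀ e : Fin C.k → Fin n, Function.Injective e → (∀ i, e i ∉ I) →
      E = I ∪ Finset.univ.image e →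
      ∀ (c : Rec n) (P : List (Rec n)), (∀ i ∈ I, i ∉ c.2) → mk e c.2 = l.S →
      (∀ r ∈ l.recs, ∃ ρ ∈ P, (∀ i ∈ I, i ∉ ρ.2) ∧ rel e c.1 ρ.1 &&& mk e ρ.2 = r.1 &&& mk e ρ.2 ∧
        mk e ρ.2 &&& r.2 = mk e ρ.2) →
      ∀ N : ℕ, (l.q : ℝ) * z < N + 1 → Win E N c P := by
  classical
  intro Q
  induction Q using Nat.strong_induction_on with
  | _ Q ih =>
  intro l hl hlQ e he heI hE c P hcI hcS hrecs N hN
  obtain ⟨idx, hidx⟩ := hl
  have hok : lemOK C l = true := BT.of_get? hL hidx
  simp only [lemOK, Bool.and_eq_true, decide_eq_true_eq, beq_iff_eq] at hok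
  obtain ⟨⟨⟨⟨⟨⟨⟨⟨⟨hjk, hSj⟩, htj⟩, hJt⟩, hJlt⟩, htlt⟩, hsmax⟩, hcl⟩, hrlt⟩, hrows⟩ := hok
  have hrlt' : ∀ r ∈ l.recs, r.1 < 2 ^ C.k ∧ r.2 < 2 ^ C.k := by
    intro r hr
    have := (List.all_eq_true.1 hrlt) r hr
    simpa only [Bool.and_eq_true, decide_eq_true_eq] using this
  -- the direction of the first step
  let j : Fin C.k := ⟨l.j, hjk⟩
  have hJj : l.J.testBit l.j = false := by
    by_contra hne
    have h1 := congrArg (fun x => x.testBit l.j) hJt
    simp only [Nat.testBit_and, htj, Nat.zero_testBit, Bool.and_true] at h1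
    exact hne h1
  let J' : Finset (Fin C.k) := Finset.univ.filter (fun i : Fin C.k => l.J.testBit i = true)
  let D : Finset (Fin n) := I ∪ J'.image e
  have hDcard : D.card = I.card + pc C.k l.J := by
    rw [Finset.card_union_of_disjoint, Finset.card_image_of_injective _ he, card_pc]
    rw [Finset.disjoint_left]
    intro x hx hx'
    obtain ⟨i, _, rfl⟩ := Finset.mem_image.1 hx'
    exact heI i hx
  obtain ⟨T, hT, hTz⟩ := hS _ hsmax D hDcard
  have hDE : D ⊆ E := by
    rw [hE]
    exact Finset.union_subset_union_right (Finset.image_subset_image (Finset.subset_univ _))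
  have hmemD : ∀ i : Fin C.k, e i ∈ D ↔ l.J.testBit i = true := by
    intro i
    simp only [D, J', Finset.mem_union, Finset.mem_image, Finset.mem_filter, Finset.mem_univ, true_and]
    constructor
    · rintro (h | ⟨a, ha, hai⟩)
      · exact absurd h (heI i)
      · rw [← he hai]; exact ha
    · intro h; exact Or.inr ⟨i, h, rfl⟩
  have hmemE : ∀ i : Fin C.k, e i ∈ E := by
    intro i; rw [hE]; exact Finset.mem_union_right _ (Finset.mem_image_of_mem _ (Finset.mem_univ _))
  have hEI : ∀ x ∈ E, x ∉ I → ∃ i, e i = x := by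
    intro x hx hxI
    rw [hE, Finset.mem_union] at hx
    rcases hx with hx | hx
    · exact absurd hx hxI
    · obtain ⟨i, _, rfl⟩ := Finset.mem_image.1 hx
      exact ⟨i, rfl⟩
  have hjD : e j ∉ D := by
    intro h
    have := (hmemD j).1 h
    rw [show ((j : ℕ)) = l.j from rfl, hJj] at this
    exact Bool.noConfusion this
  have hjc : e j ∈ c.2 := by
    have h1 : (mk e c.2).testBit j = true := by rw [hcS]; exact hSj
    rw [mk_testBit] at h1
    exact of_decide_eq_true h1
  let g : Fin n → Bool := fun x => if (∃ i : Fin C.k, e i = x ∧ l.t.testBit i = true) then !c.1 x else c.1 x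
  have hg1 : ∀ i : Fin C.k, l.t.testBit i = true → g (e i) = !c.1 (e i) := by
    intro i hi
    simp only [g]; rw [if_pos ⟨i, rfl, hi⟩]
  have hg2 : ∀ i : Fin C.k, l.t.testBit i = false → g (e i) = c.1 (e i) := by
    intro i hi
    simp only [g]; rw [if_neg]
    rintro ⟨a, ha, ha'⟩
    rw [he ha, hi] at ha'
    exact Bool.noConfusion ha'
  have hgj : c.1 (e j) ≠ g (e j) := by
    rw [hg1 j htj]; cases c.1 (e j) <;> simp
  -- the arithmetic
  have hcz : (C.cost (pc C.k l.J) : ℝ) * z ≤ l.q * z :=
    mul_le_mul_of_nonneg_right (by exact_mod_cast hcl) hz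
  have hTN : T + C.k ≤ N := by
    have : ((T + C.k : ℕ) : ℝ) < ((N + 1 : ℕ) : ℝ) := by push_cast; linarith
    exact Nat.le_of_lt_succ (by exact_mod_cast this)
  have hcardE : (E \ D).card ≤ C.k := by
    have hsub : E \ D ⊆ Finset.univ.image e := by
      intro x hx
      rw [Finset.mem_sdiff] at hx
      obtain ⟨i, rfl⟩ := hEI x hx.1 (fun h => hx.2 (Finset.mem_union_left _ h))
      exact Finset.mem_image_of_mem _ (Finset.mem_univ _)
    calc (E \ D).card ≤ (Finset.univ.image e).card := Finset.card_le_card hsub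
      _ ≤ (Finset.univ : Finset (Fin C.k)).card := Finset.card_image_le
      _ = C.k := by simp
  have hN' : (((N - (T + C.k) : ℕ) : ℝ)) = N - (T + C.k) := by
    rw [Nat.cast_sub hTN]; push_cast; ring
  refine (query D E hDE T (N - (T + C.k)) hT c P (e j) (hmemE j) hjD hjc g hgj ?_).mono (by omega)
  intro w R h1 h2 h3 h4 h5
  set ω := rel e c.1 w.1 with hω
  set σ := mk e w.2 with hσ
  have hωlt : ω < 2 ^ C.k := rel_lt _ _ _
  have hσlt : σ < 2 ^ C.k := mk_lt _ _
  by_cases hσ0 : σ = 0
  · apply Win.done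
    intro x hx
    by_cases hxI : x ∈ I
    · exact h3 x (Finset.mem_union_left _ hxI)
    · obtain ⟨i, rfl⟩ := hEI x hx hxI
      have := mk_testBit e w.2 i
      rw [← hσ, hσ0, Nat.zero_testBit] at this
      exact of_decide_eq_false this.symm
  -- outside `t` and `J` the walker has not moved
  have hstay : ∀ i : Fin C.k, l.J.testBit i = false → l.t.testBit i = false → w.1 (e i) = c.1 (e i) := by
    intro i hJ ht
    have hD : e i ∉ D := fun h => by
      have := (hmemD i).1 h; rw [hJ] at this; exact Bool.noConfusion this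
    have hij : e i ≠ e j := by
      intro h
      have := he h
      rw [this] at ht
      rw [show ((j : ℕ)) = l.j from rfl, htj] at ht
      exact Bool.noConfusion ht
    rcases h5 (e i) (hmemE i) hD with h | h
    · rw [h, hg2 i ht]
    · rw [h, flip_ne _ hij]
  have hωj : ω.testBit l.j = true := by
    have h0 : (rel e c.1 w.1).testBit j = (c.1 (e j) ^^ w.1 (e j)) := rel_testBit _ _ _ _
    have h6 : w.1 (e j) = !c.1 (e j) := by
      rcases h5 (e j) (hmemE j) hjD with h | h
      · rw [h, hg1 j htj]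
      · rw [h, flip_same]
    rw [h6] at h0
    rw [hω]
    show (rel e c.1 w.1).testBit j = true
    rw [h0]; cases c.1 (e j) <;> rfl
  have hωt : ω &&& (l.J ||| l.t) = ω := by
    rw [and_eq_left_iff hωlt]
    intro i hi
    rw [Nat.testBit_or]
    by_contra hne
    have hne' : l.J.testBit i = false ∧ l.t.testBit i = false := by
      revert hne; cases l.J.testBit i <;> cases l.t.testBit i <;> simp
    have h6 := hstay i hne'.1 hne'.2
    rw [hω, rel_testBit, h6] at hi
    revert hi; cases c.1 (e i) <;> simp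
  have hends : ω ∈ ends C l := by
    simp only [ends, List.mem_filter, List.mem_range, Bool.and_eq_true, beq_iff_eq]
    exact ⟨hωlt, hωj, hωt⟩
  have hforb : l.J ||| (l.t ^^^ (l.t &&& ω)) < 2 ^ C.k :=
    Nat.or_lt_two_pow hJlt (Nat.xor_lt_two_pow htlt (lt_of_le_of_lt Nat.and_le_left htlt))
  have hσf : σ &&& (l.J ||| (l.t ^^^ (l.t &&& ω))) = 0 := by
    rw [and_eq_zero_iff' hσlt]
    intro i hi
    rw [hσ, mk_testBit] at hi
    have hi' : e i ∈ w.2 := of_decide_eq_true hi
    have hJi : l.J.testBit i = false := by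
      by_contra hne
      exact h3 (e i) ((hmemD i).2 (by simpa using hne)) hi'
    have hD : e i ∉ D := fun h => by
      have := (hmemD i).1 h; rw [hJi] at this; exact Bool.noConfusion this
    rw [Nat.testBit_or, Nat.testBit_xor, Nat.testBit_and, hJi, Bool.false_or]
    cases ht : l.t.testBit i
    · simp
    · -- then the walker must have moved
      have : ω.testBit i = true := by
        by_contra hne
        rw [hω, rel_testBit] at hne
        have h6 : w.1 (e i) = c.1 (e i) := by
          revert hne; cases c.1 (e i) <;> cases w.1 (e i) <;> simp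
        refine h4 (e i) (hmemE i) hD ?_ hi'
        rw [h6, hg1 i ht]
        cases c.1 (e i) <;> simp
      rw [this]; rfl
  -- compatibility with the records
  have hrec : ∀ ρ ∈ R, (∀ i ∈ I, i ∉ ρ.2) → ∀ r S : ℕ, S < 2 ^ C.k →
      rel e c.1 ρ.1 &&& mk e ρ.2 = r &&& mk e ρ.2 → mk e ρ.2 &&& S = mk e ρ.2 →
      ((r ^^^ ω) &&& S < 2 ^ C.k ∧ ¬ (((r ^^^ ω) &&& S) &&& σ = (r ^^^ ω) &&& S)) := by
    intro ρ hρ hρI r S hSlt hr hS'
    have hlt : (r ^^^ ω) &&& S < 2 ^ C.k := lt_of_le_of_lt Nat.and_le_right hSlt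
    refine ⟨hlt, ?_⟩
    intro heq
    obtain ⟨x, hxE, hxne, hxρ, hxw⟩ := h2 ρ hρ
    have hxI : x ∉ I := fun h => hρI x h hxρ
    obtain ⟨i, rfl⟩ := hEI x hxE hxI
    rw [and_eq_left_iff hlt] at heq
    have hb : ((r ^^^ ω) &&& S).testBit i = true := by
      have hmi : (mk e ρ.2).testBit i = true := by rw [mk_testBit]; exact decide_eq_true hxρ
      have hri : (rel e c.1 ρ.1).testBit i = r.testBit i := by
        have := congrArg (fun x => x.testBit i) hr
        simpa only [Nat.testBit_and, hmi, Bool.and_true] using this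
      rw [Nat.testBit_and, Nat.testBit_xor, ← hri, hω, rel_testBit, rel_testBit]
      have hSi : S.testBit i = true := by
        rw [and_eq_left_iff (mk_lt e ρ.2)] at hS'
        exact hS' i hmi
      rw [hSi]
      revert hxne; cases c.1 (e i) <;> cases ρ.1 (e i) <;> cases w.1 (e i) <;> simp
    have := heq i hb
    rw [hσ, mk_testBit] at this
    exact hxw (of_decide_eq_true this)
  have hself : rel e c.1 c.1 = 0 := by
    apply eq_of_bits (rel_lt _ _ _) (by positivity)
    intro i; rw [rel_testBit, Nat.zero_testBit]; cases c.1 (e i) <;> rfl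
  have hstart : (startRow C l ω).testBit σ = true := by
    apply startRow_spec C hC l hσlt hσ0 hforb hσf
    intro r hr
    rcases List.mem_cons.1 hr with rfl | hr
    · exact hrec c (h1 c List.mem_cons_self) hcI 0 l.S (by rw [← hcS]; exact mk_lt _ _)
        (by rw [hself]) (by rw [hcS, Nat.and_self])
    · obtain ⟨ρ, hρ, hρI, hr1, hr2⟩ := hrecs r hr
      exact hrec ρ (h1 ρ (List.mem_cons_of_mem _ hρ)) hρI r.1 r.2 (hrlt' r hr).2 hr1 hr2
  obtain ⟨a, ha1, ha2⟩ := rowsOK_spec C l _ _ hrows ω hends σ hstart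
  -- the child
  rw [repOK] at ha2
  split at ha2
  swap
  · exact Bool.noConfusion ha2
  rename_i c' p hc' hp
  simp only [Bool.and_eq_true, beq_iff_eq, decide_eq_true_eq, List.all_eq_true] at ha2
  obtain ⟨⟨hc'S, hc'q⟩, hc'r⟩ := ha2
  obtain ⟨π, hπ, hπs⟩ := perm_spec (BT.of_get? hP hp)
  have hlook_mk : ∀ X : Finset (Fin n), mk (e ∘ π) X = look C.k p.2 (mk e X) := by
    intro X
    apply eq_of_bits (mk_lt _ _) (look_lt _ _ _)
    intro i
    rw [mk_testBit, hπs _ (mk_lt _ _), mk_testBit]; rfl
  have hlook_rel : ∀ x y : Fin n → Bool, rel (e ∘ π) x y = look C.k p.2 (rel e x y) := by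
    intro x y
    apply eq_of_bits (rel_lt _ _ _) (look_lt _ _ _)
    intro i
    rw [rel_testBit, hπs _ (rel_lt _ _ _), rel_testBit]; rfl
  have hπsurj : Function.Surjective π := Finite.surjective_of_injective hπ
  have hQ : c'.q < Q := by
    have := hcost (pc C.k l.J); omega
  refine ih c'.q hQ c' ⟨_, hc'⟩ rfl (e ∘ π) (he.comp hπ) (fun i => heI _) ?_ w R
    (fun i hi => h3 i (Finset.mem_union_left _ hi)) ?_ ?_ _ ?_
  · rw [hE]
    congr 1
    ext x
    simp only [Finset.mem_image, Finset.mem_univ, true_and, Function.comp]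
    constructor
    · rintro ⟨i, rfl⟩
      obtain ⟨i', rfl⟩ := hπsurj i
      exact ⟨i', rfl⟩
    · rintro ⟨i, rfl⟩; exact ⟨π i, rfl⟩
  · rw [hlook_mk, hc'S, ha1]
  · intro r' hr'
    have := hc'r r' hr'
    simp only [List.any_eq_true, Bool.and_eq_true, beq_iff_eq, shiftRecs, List.mem_map] at this
    obtain ⟨r, ⟨r0, hr0, hr0r⟩, hr'1, hr'2⟩ := this
    subst hr0r
    have key : ∃ ρ ∈ R, (∀ i ∈ I, i ∉ ρ.2) ∧
        rel e c.1 ρ.1 &&& mk e ρ.2 = r0.1 &&& mk e ρ.2 ∧
        mk e ρ.2 &&& r0.2 = mk e ρ.2 ∧ r0.1 < 2 ^ C.k ∧ r0.2 < 2 ^ C.k := by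
      rcases List.mem_cons.1 hr0 with rfl | hr0
      · exact ⟨c, h1 c List.mem_cons_self, hcI, by rw [hself], by rw [hcS, Nat.and_self],
          by positivity, by rw [← hcS]; exact mk_lt _ _⟩
      · obtain ⟨ρ, hρ, hρI, hr1, hr2⟩ := hrecs r0 hr0
        exact ⟨ρ, h1 ρ (List.mem_cons_of_mem _ hρ), hρI, hr1, hr2,
          (hrlt' r0 hr0).1, (hrlt' r0 hr0).2⟩
    obtain ⟨ρ, hρ, hρI, hr1, hr2, hr4, hr3⟩ := key
    refine ⟨ρ, hρ, hρI, ?_, ?_⟩
    · rw [hlook_rel, hlook_mk]
      apply eq_of_bits (lt_of_le_of_lt Nat.and_le_left (look_lt _ _ _))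
        (lt_of_le_of_lt Nat.and_le_right (look_lt _ _ _))
      intro i
      rw [Nat.testBit_and, Nat.testBit_and]
      cases hmi : (look C.k p.2 (mk e ρ.2)).testBit i
      · simp
      · rw [Bool.and_true, Bool.and_true]
        have hmi' : (mk e ρ.2).testBit (π i) = true := by rw [← hπs _ (mk_lt _ _)]; exact hmi
        rw [and_eq_left_iff (mk_lt _ _)] at hr2
        have hSi : (look C.k p.2 r0.2).testBit i = true := by
          rw [hπs _ hr3]; exact hr2 (π i) hmi'
        have h12 := congrArg (fun x => x.testBit i) hr'1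
        simp only [Nat.testBit_and, hSi, Bool.and_true] at h12
        rw [h12, hπs _ (rel_lt _ _ _), hπs _ (Nat.xor_lt_two_pow hr4 hωlt), rel_xor e c.1 w.1 ρ.1,
          Nat.testBit_xor, Nat.testBit_xor]
        have h13 := congrArg (fun x => x.testBit (π i)) hr1
        simp only [Nat.testBit_and, hmi', Bool.and_true] at h13
        rw [h13]
    · rw [hlook_mk]
      rw [and_eq_left_iff (look_lt _ _ _)]
      intro i hi
      rw [hπs _ (mk_lt _ _)] at hi
      rw [and_eq_left_iff (mk_lt _ _)] at hr2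
      have h7 := hr2 (π i) hi
      rw [and_eq_left_iff (look_lt _ _ _)] at hr'2
      apply hr'2
      rw [hπs _ hr3]; exact h7
  · rw [hN']
    have h9 : (c'.q : ℝ) + C.cost (pc C.k l.J) ≤ l.q := by exact_mod_cast hc'q
    have h10 : ((c'.q : ℝ) + C.cost (pc C.k l.J)) * z ≤ l.q * z := mul_le_mul_of_nonneg_right h9 hz
    have h11 : ((c'.q : ℝ) + C.cost (pc C.k l.J)) * z = c'.q * z + C.cost (pc C.k l.J) * z := by ring
    linarith

end sound

end Pool.Agent.H141.PF
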