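import Pool.Agent.H141.PF.Game

/-!
# Abstract objective functions on the cube satisfy the record game

`OneMax f`: adjacent vertices have different values and every face of the `n`-cube has exactly one local
maximum.  Along an increasing path all pairs of records are compatible, and a winning strategy of the record
game gives one deterministic pivot rule for all these functions.
-/

namespace Pool.Agent.H141.PF

variable {n : ℕ}

/-- The improving directions of the function `f` at the vertex `x`. -/
noncomputable def improving (f : (Fin n → Bool) → ℝ) (x : Fin n → Bool) : Finset (Fin n) :=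
  Finset.univ.filter (fun i => f x < f (flip x i))

theorem mem_improving {f : (Fin n → Bool) → ℝ} {x : Fin n → Bool} {i : Fin n} :
    i ∈ improving f x ↔ f x < f (flip x i) := by simp [improving]

/-- A set of outgoing directions at each vertex such that each face has exactly one sink. -/
def USO (Q : (Fin n → Bool) → Fin n → Prop) : Prop :=
  ∀ (U : Finset (Fin n)) (x : Fin n → Bool), ∃! y : Fin n → Bool,
    (∀ i, i ∉ U → y i = x i) ∧ ∀ i ∈ U, ¬ Q y i

theorem USO.flip_one {Q : (Fin n → Bool) → Fin n → Prop} (h : USO Q) (a : Fin n) :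
    USO (fun y i => if i = a then ¬ Q y i else Q y i) := by
  intro U x
  by_cases ha : a ∈ U
  · obtain ⟨y, ⟨hy1, hy2⟩, hyu⟩ := h U x
    obtain ⟨s, ⟨hs1, hs2⟩, hsu⟩ := h (U.erase a) (Function.update y a (!y a))
    have hsa : s a = !y a := by
      rw [hs1 a (by simp)]; simp
    have hsU : ∀ i, i ∉ U → s i = x i := by
      intro i hi
      have hia : i ≠ a := by rintro rfl; exact hi ha
      rw [hs1 i (by simp [hi]), Function.update_of_ne hia]
      exact hy1 i hi
    have hQ : Q s a := by
      by_contra hQ
      have := hyu s ⟨hsU, fun i hi => by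
        by_cases hia : i = a
        · subst hia; exact hQ
        · exact hs2 i (Finset.mem_erase.2 ⟨hia, hi⟩)⟩
      rw [this] at hsa
      revert hsa; cases y a <;> simp
    refine ⟨s, ⟨hsU, ?_⟩, ?_⟩
    · intro i hi
      by_cases hia : i = a
      · subst hia; simpa using hQ
      · simpa [hia] using hs2 i (Finset.mem_erase.2 ⟨hia, hi⟩)
    · rintro z ⟨hz1, hz2⟩
      have hza : Q z a := by simpa using hz2 a ha
      have hzo : ∀ i ∈ U, i ≠ a → ¬ Q z i := by
        intro i hi hia; simpa [hia] using hz2 i hi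
      by_cases hzy : z a = y a
      · exfalso
        -- `z` and `y` are both sinks of the facet
        obtain ⟨t, _, htu⟩ := h (U.erase a) y
        have e1 : z = t := by
          apply htu
          refine ⟨fun i hi => ?_, fun i hi => hzo i (Finset.mem_erase.1 hi).2 (Finset.mem_erase.1 hi).1⟩
          by_cases hia : i = a
          · subst hia; exact hzy
          · have hiU : i ∉ U := fun hiU => hi (Finset.mem_erase.2 ⟨hia, hiU⟩)
            rw [hz1 i hiU, hy1 i hiU]
        have e2 : y = t := by
          apply htu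
          exact ⟨fun i hi => rfl, fun i hi => hy2 i (Finset.mem_erase.1 hi).2⟩
        rw [e1, ← e2] at hza
        exact hy2 a ha hza
      · apply hsu
        refine ⟨fun i hi => ?_, fun i hi => hzo i (Finset.mem_erase.1 hi).2 (Finset.mem_erase.1 hi).1⟩
        by_cases hia : i = a
        · subst hia
          rw [Function.update_self]
          revert hzy; cases z i <;> cases y i <;> simp
        · have hiU : i ∉ U := fun hiU => hi (Finset.mem_erase.2 ⟨hia, hiU⟩)
          rw [Function.update_of_ne hia, hz1 i hiU, hy1 i hiU]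
  · obtain ⟨y, ⟨hy1, hy2⟩, hyu⟩ := h U x
    have hne : ∀ i ∈ U, i ≠ a := by rintro i hi rfl; exact ha hi
    refine ⟨y, ⟨hy1, fun i hi => by simpa [hne i hi] using hy2 i hi⟩, ?_⟩
    rintro z ⟨hz1, hz2⟩
    exact hyu z ⟨hz1, fun i hi => by simpa [hne i hi] using hz2 i hi⟩

theorem USO.flip_set {Q : (Fin n → Bool) → Fin n → Prop} (h : USO Q) (K : Finset (Fin n)) :
    USO (fun y i => if i ∈ K then ¬ Q y i else Q y i) := by
  induction K using Finset.induction_on with
  | empty => simpa using h
  | insert a K ha ih =>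
    have := ih.flip_one a
    convert this using 3 with y i
    by_cases hia : i = a
    · subst hia; simp [ha]
    · simp [hia]

/-- Adjacent vertices have different values, and each face has exactly one local maximum. -/
def OneMax (f : (Fin n → Bool) → ℝ) : Prop :=
  (∀ x i, f (flip x i) ≠ f x) ∧
  ∀ (U : Finset (Fin n)) (x : Fin n → Bool), ∃! y : Fin n → Bool,
    (∀ i, i ∉ U → y i = x i) ∧ ∀ i ∈ U, f (flip y i) < f y

theorem OneMax.uso {f : (Fin n → Bool) → ℝ} (h : OneMax f) : USO (fun x i => f x < f (flip x i)) := by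
  intro U x
  obtain ⟨y, ⟨hy1, hy2⟩, hyu⟩ := h.2 U x
  refine ⟨y, ⟨hy1, fun i hi => (hy2 i hi).le.not_gt⟩, ?_⟩
  rintro z ⟨hz1, hz2⟩
  exact hyu z ⟨hz1, fun i hi => lt_of_le_of_ne (not_lt.1 (hz2 i hi)) (h.1 z i)⟩

theorem face_flip {U : Finset (Fin n)} {x y : Fin n → Bool} (hy : ∀ i, i ∉ U → y i = x i) {i : Fin n}
    (hi : i ∈ U) : ∀ k, k ∉ U → flip y i k = x k := by
  intro k hk
  have hki : k ≠ i := by rintro rfl; exact hk hi
  rw [flip_ne y hki]; exact hy k hk

/-- A local maximum of a face is a maximum of the face. -/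
theorem OneMax.le_of_sink {f : (Fin n → Bool) → ℝ} (h : OneMax f) {U : Finset (Fin n)}
    {x z : Fin n → Bool} (hz : ∀ i, i ∉ U → z i = x i) (hx : ∀ i ∈ U, ¬ f x < f (flip x i)) :
    f z ≤ f x := by
  classical
  obtain ⟨y, hy, hmax⟩ := Finset.exists_max_image
    (Finset.univ.filter (fun y : Fin n → Bool => ∀ i, i ∉ U → y i = x i)) f ⟨x, by simp⟩
  have hy1 : ∀ i, i ∉ U → y i = x i := by simpa using hy
  obtain ⟨t, _, htu⟩ := h.uso U x
  have e1 : x = t := htu x ⟨fun i _ => rfl, hx⟩
  have e2 : y = t := htu y ⟨hy1, fun i hi => not_lt.2 (hmax _ (by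
    rw [Finset.mem_filter]; exact ⟨Finset.mem_univ _, face_flip hy1 hi⟩))⟩
  have := hmax z (by rw [Finset.mem_filter]; exact ⟨Finset.mem_univ _, hz⟩)
  rw [e1, ← e2]; exact this

/-- A local minimum of a face is a minimum of the face. -/
theorem OneMax.ge_of_source {f : (Fin n → Bool) → ℝ} (h : OneMax f) {U : Finset (Fin n)}
    {x z : Fin n → Bool} (hz : ∀ i, i ∉ U → z i = x i) (hx : ∀ i ∈ U, f x < f (flip x i)) :
    f x ≤ f z := by
  classical
  obtain ⟨y, hy, hmin⟩ := Finset.exists_min_image
    (Finset.univ.filter (fun y : Fin n → Bool => ∀ i, i ∉ U → y i = x i)) f ⟨x, by simp⟩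
  have hy1 : ∀ i, i ∉ U → y i = x i := by simpa using hy
  obtain ⟨t, _, htu⟩ := h.uso.flip_set U U x
  have e1 : x = t := htu x ⟨fun i _ => rfl, fun i hi => by simp [hi, hx i hi]⟩
  have e2 : y = t := htu y ⟨hy1, fun i hi => by
    have h1 : f y ≤ f (flip y i) := hmin _ (by
      rw [Finset.mem_filter]; exact ⟨Finset.mem_univ _, face_flip hy1 hi⟩)
    have h2 : f y < f (flip y i) := lt_of_le_of_ne h1 (h.1 y i).symm
    simp [hi, h2]⟩
  have := hmin z (by rw [Finset.mem_filter]; exact ⟨Finset.mem_univ _, hz⟩)
  rw [e1, ← e2]; exact this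

/-- On every face, a vertex without improving directions is a maximum and a vertex without decreasing
directions is a minimum. -/
def Uni (f : (Fin n → Bool) → ℝ) : Prop :=
  (∀ (U : Finset (Fin n)) (x z : Fin n → Bool), (∀ i ∈ U, f (flip x i) ≤ f x) →
    (∀ i, i ∉ U → z i = x i) → f z ≤ f x) ∧
  (∀ (U : Finset (Fin n)) (x z : Fin n → Bool), (∀ i ∈ U, f x ≤ f (flip x i)) →
    (∀ i, i ∉ U → z i = x i) → f x ≤ f z)

theorem OneMax.toUni {f : (Fin n → Bool) → ℝ} (h : OneMax f) : Uni f :=
  ⟨fun _ _ _ hx hz => h.le_of_sink hz (fun i hi => not_lt.2 (hx i hi)),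
    fun _ x _ hx hz => h.ge_of_source hz (fun i hi => lt_of_le_of_ne (hx i hi) (h.1 x i).symm)⟩

/-- The directed Szabó–Welzl property. -/
theorem Uni.comp {f : (Fin n → Bool) → ℝ} (h : Uni f) {x y : Fin n → Bool} (hxy : f x < f y) :
    Comp Finset.univ (x, improving f x) (y, improving f y) := by
  classical
  by_contra hno
  have hno' : ∀ i, x i ≠ y i → f x < f (flip x i) → f y < f (flip y i) := by
    intro i hne hi
    by_contra hy
    exact hno ⟨i, Finset.mem_univ _, hne, mem_improving.2 hi, fun h' => hy (mem_improving.1 h')⟩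
  let z : Fin n → Bool := fun i => if x i ≠ y i ∧ ¬ f x < f (flip x i) then y i else x i
  have h1 : f z ≤ f x := by
    apply h.1 (Finset.univ.filter (fun i => x i ≠ y i ∧ ¬ f x < f (flip x i)))
    · intro i hi
      rw [Finset.mem_filter] at hi
      exact not_lt.1 hi.2.2
    · intro i hi
      have hi' : ¬ (x i ≠ y i ∧ ¬ f x < f (flip x i)) := by simpa using hi
      simp only [z]; rw [if_neg hi']
  have h2 : f y ≤ f z := by
    apply h.2 (Finset.univ.filter (fun i => x i ≠ y i ∧ f x < f (flip x i)))
    · intro i hi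
      rw [Finset.mem_filter] at hi
      exact (hno' i hi.2.1 hi.2.2).le
    · intro i hi
      have hi' : ¬ (x i ≠ y i ∧ f x < f (flip x i)) := by simpa using hi
      simp only [z]
      by_cases hne : x i ≠ y i
      · have : ¬ f x < f (flip x i) := fun hh => hi' ⟨hne, hh⟩
        rw [if_pos ⟨hne, this⟩]
      · rw [if_neg (fun hh => hne hh.1)]
        exact not_not.1 hne
  linarith

/-- A vertex without improving directions is the maximum. -/
theorem Uni.le_max {f : (Fin n → Bool) → ℝ} (h : Uni f) {x : Fin n → Bool} (hx : improving f x = ∅)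
    (z : Fin n → Bool) : f z ≤ f x := by
  apply h.1 Finset.univ x z
  · intro i _
    by_contra hlt
    have : i ∈ improving f x := mem_improving.2 (not_le.1 hlt)
    rw [hx] at this
    simp at this
  · intro i hi; exact absurd (Finset.mem_univ i) hi

end Pool.Agent.H141.PF
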