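import Mathlib

/-!
# Path following on the cube: the record game

A record is a vertex of the `n`-cube together with the set of its improving directions.  `Comp E r s` is
the relation which holds between an earlier record `r` and a later record `s` (directed Szabó–Welzl
property, restricted to the directions in `E`).  `Win E q c P`: the walker, at the record `c` with past
records `P`, can reach a vertex without improving directions in `E` within `q` improving steps in
directions of `E`, whatever the improving sets are, as long as all records are compatible.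
-/

namespace Pool.Agent.H141.PF

variable {n : ℕ}

/-- The neighbour of the vertex `x` of the `n`-cube in direction `i`. -/
def flip (x : Fin n → Bool) (i : Fin n) : Fin n → Bool := Function.update x i (!x i)

theorem flip_same (x : Fin n → Bool) (i : Fin n) : flip x i i = !x i := by simp [flip]

theorem flip_ne (x : Fin n → Bool) {i j : Fin n} (h : j ≠ i) : flip x i j = x j := by
  simp [flip, h]

/-- Records: a vertex and its improving directions. -/
abbrev Rec (n : ℕ) := (Fin n → Bool) × Finset (Fin n)

/-- The later record `s` is compatible with the earlier record `r`. -/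
def Comp (E : Finset (Fin n)) (r s : Rec n) : Prop :=
  ∃ i ∈ E, r.1 i ≠ s.1 i ∧ i ∈ r.2 ∧ i ∉ s.2

/-- The walker at `c`, with past `P`, can finish within `q` steps in the directions of `E`. -/
def Win (E : Finset (Fin n)) : ℕ → Rec n → List (Rec n) → Prop
  | 0, c, _ => ∀ i ∈ E, i ∉ c.2
  | q + 1, c, P => (∀ i ∈ E, i ∉ c.2) ∨ ∃ i ∈ E, i ∈ c.2 ∧ ∀ S' : Finset (Fin n),
      (∀ r ∈ c :: P, Comp E r (flip c.1 i, S')) → Win E q (flip c.1 i, S') (c :: P)

theorem Win.done {E : Finset (Fin n)} (q : ℕ) {c : Rec n} {P : List (Rec n)}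
    (h : ∀ i ∈ E, i ∉ c.2) : Win E q c P := by
  cases q with
  | zero => exact h
  | succ q => exact Or.inl h

theorem Win.succ {E : Finset (Fin n)} {q : ℕ} : ∀ {c : Rec n} {P : List (Rec n)},
    Win E q c P → Win E (q + 1) c P := by
  induction q with
  | zero => intro c P h; exact Or.inl h
  | succ q ih =>
    intro c P h
    rcases h with h | ⟨i, hi, hic, h⟩
    · exact Or.inl h
    · exact Or.inr ⟨i, hi, hic, fun S' hS' => ih (h S' hS')⟩

theorem Win.mono {E : Finset (Fin n)} {q q' : ℕ} (hq : q ≤ q') {c : Rec n} {P : List (Rec n)}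
    (h : Win E q c P) : Win E q' c P := by
  induction q', hq using Nat.le_induction with
  | base => exact h
  | succ m _ ih => exact ih.succ

/-- Every start can be solved within `T` steps in the directions of `D`. -/
def Solve (D : Finset (Fin n)) (T : ℕ) : Prop := ∀ (x : Fin n → Bool) (S : Finset (Fin n)), Win D T (x, S) []

/-- The travel lemma: while walking towards `g` in the directions of `E \ D` we play a game in the
directions of `D`. -/
theorem travel (D E : Finset (Fin n)) (hDE : D ⊆ E) (q : ℕ) (R0 : List (Rec n))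
    (g v0 : Fin n → Bool)
    (H : ∀ (w : Rec n) (R : List (Rec n)), (∀ r ∈ R0, r ∈ R) → (∀ r ∈ R, Comp E r w) →
      (∀ i ∈ D, i ∉ w.2) → (∀ i ∈ E, i ∉ D → w.1 i ≠ g i → i ∉ w.2) →
      (∀ i ∈ E, i ∉ D → w.1 i = g i ∨ w.1 i = v0 i) → Win E q w R) :
    ∀ (m τ δ : ℕ) (w : Rec n) (R : List (Rec n)) (L : List (Rec n)) (xv : Fin n → Bool), τ + δ = m →
      (∀ r ∈ R0, r ∈ R) → (∀ r ∈ R, Comp E r w) →
      ((E \ D).filter (fun i => w.1 i ≠ g i)).card ≤ δ →
      (∀ i ∈ E, i ∉ D → w.1 i = g i ∨ w.1 i = v0 i) →
      (∀ l ∈ L, ∃ r ∈ R, r.2 = l.2 ∧ (∀ i ∈ D, r.1 i = l.1 i) ∧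
        ∀ i ∈ E, i ∉ D → (r.1 i ≠ g i → i ∉ r.2) ∧ (w.1 i = g i ∨ w.1 i = r.1 i)) →
      (∀ i ∈ D, w.1 i = xv i) →
      (∀ S' : Finset (Fin n), (∀ l ∈ L, Comp D l (xv, S')) → Win D τ (xv, S') L) →
      Win E (q + τ + δ) w R := by
  intro m
  induction m with
  | zero =>
    intro τ δ w R L xv hm hR0 hR hδ hbet hL hxv hP
    obtain ⟨rfl, rfl⟩ : τ = 0 ∧ δ = 0 := by omega
    have hg : ∀ i ∈ E, i ∉ D → w.1 i = g i := by
      intro i hi hiD
      by_contra hne
      have : ((E \ D).filter (fun i => w.1 i ≠ g i)).Nonempty :=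
        ⟨i, by simp [hi, hiD, hne]⟩
      have := this.card_pos
      omega
    have hw : Win D 0 (xv, w.2) L := by
      apply hP
      intro l hl
      obtain ⟨r, hr, hr2, hrD, hrE⟩ := hL l hl
      obtain ⟨i, hiE, hne, hir, hiw⟩ := hR r hr
      by_cases hiD : i ∈ D
      · refine ⟨i, hiD, ?_, ?_, hiw⟩
        · rw [← hrD i hiD]; simpa [← hxv i hiD] using hne
        · rw [← hr2]; exact hir
      · have h1 := hrE i hiE hiD
        have h2 := hg i hiE hiD
        exact absurd hir (h1.1 (by rw [← h2]; exact hne))
    exact H w R hR0 hR hw (fun i hi hiD hne => absurd (hg i hi hiD) hne) hbet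
  | succ m ih =>
    intro τ δ w R L xv hm hR0 hR hδ hbet hL hxv hP
    by_cases hout : ∃ i ∈ E, i ∉ D ∧ w.1 i ≠ g i ∧ i ∈ w.2
    · obtain ⟨i, hiE, hiD, hig, hiw⟩ := hout
      have hpos : 0 < ((E \ D).filter (fun i => w.1 i ≠ g i)).card :=
        Finset.card_pos.2 ⟨i, by simp [hiE, hiD, hig]⟩
      obtain ⟨δ', rfl⟩ : ∃ δ', δ = δ' + 1 := ⟨δ - 1, by omega⟩
      have hfi : flip w.1 i i = g i := by
        rw [flip_same]
        revert hig
        cases w.1 i <;> cases g i <;> simp
      refine Or.inr ⟨i, hiE, hiw, fun S' hS' => ?_⟩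
      refine ih τ δ' (flip w.1 i, S') (w :: R) L xv (by omega) (fun r hr => List.mem_cons_of_mem _ (hR0 r hr)) hS' ?_ ?_ ?_ ?_ hP
      · have hsub : ((E \ D).filter (fun k => (flip w.1 i) k ≠ g k)) ⊆
            ((E \ D).filter (fun k => w.1 k ≠ g k)).erase i := by
          intro k hk
          rw [Finset.mem_filter] at hk
          rw [Finset.mem_erase, Finset.mem_filter]
          have hki : k ≠ i := by
            rintro rfl
            exact hk.2 hfi
          refine ⟨hki, hk.1, ?_⟩
          rw [← flip_ne w.1 hki]; exact hk.2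
        have := Finset.card_le_card hsub
        rw [Finset.card_erase_of_mem (by simp [hiE, hiD, hig])] at this
        show (Finset.filter (fun k => (flip w.1 i) k ≠ g k) (E \ D)).card ≤ δ'
        omega
      · intro k hk hkD
        by_cases hki : k = i
        · subst hki; exact Or.inl hfi
        · show flip w.1 i k = g k ∨ flip w.1 i k = v0 k
          rw [flip_ne w.1 hki]; exact hbet k hk hkD
      · intro l hl
        obtain ⟨r, hr, hr2, hrD, hrE⟩ := hL l hl
        refine ⟨r, List.mem_cons_of_mem _ hr, hr2, hrD, fun k hk hkD => ⟨(hrE k hk hkD).1, ?_⟩⟩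
        by_cases hki : k = i
        · subst hki; exact Or.inl hfi
        · show flip w.1 i k = g k ∨ flip w.1 i k = r.1 k
          rw [flip_ne w.1 hki]; exact (hrE k hk hkD).2
      · intro k hk
        have hki : k ≠ i := by rintro rfl; exact hiD hk
        show flip w.1 i k = xv k
        rw [flip_ne w.1 hki]; exact hxv k hk
    · have hout' : ∀ i ∈ E, i ∉ D → w.1 i ≠ g i → i ∉ w.2 := by
        intro i hi hiD hne hiw
        exact hout ⟨i, hi, hiD, hne, hiw⟩
      have hw : Win D τ (xv, w.2) L := by
        apply hP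
        intro l hl
        obtain ⟨r, hr, hr2, hrD, hrE⟩ := hL l hl
        obtain ⟨i, hiE, hne, hir, hiw⟩ := hR r hr
        by_cases hiD : i ∈ D
        · refine ⟨i, hiD, ?_, ?_, hiw⟩
          · rw [← hrD i hiD]; simpa [← hxv i hiD] using hne
          · rw [← hr2]; exact hir
        · have h1 := hrE i hiE hiD
          rcases h1.2 with h2 | h2
          · exact absurd hir (h1.1 (by rw [← h2]; exact hne))
          · exact absurd h2.symm hne
      by_cases hD : ∀ i ∈ D, i ∉ w.2
      · exact (H w R hR0 hR hD hout' hbet).mono (by omega)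
      · cases τ with
        | zero => exact absurd hw hD
        | succ τ' =>
          rcases hw with hw | ⟨i, hiD, hiw, hw⟩
          · exact absurd hw hD
          · have e : q + (τ' + 1) + δ = (q + τ' + δ) + 1 := by omega
            rw [e]
            refine Or.inr ⟨i, hDE hiD, hiw, fun S' hS' => ?_⟩
            refine ih τ' δ (flip w.1 i, S') (w :: R) ((xv, w.2) :: L) (flip xv i) (by omega)
              (fun r hr => List.mem_cons_of_mem _ (hR0 r hr)) hS' ?_ ?_ ?_ ?_ ?_
            · have : ((E \ D).filter (fun k => (flip w.1 i) k ≠ g k)) =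
                  ((E \ D).filter (fun k => w.1 k ≠ g k)) := by
                apply Finset.filter_congr
                intro k hk
                have hki : k ≠ i := by
                  rintro rfl
                  exact (Finset.mem_sdiff.1 hk).2 hiD
                rw [flip_ne w.1 hki]
              show (Finset.filter (fun k => (flip w.1 i) k ≠ g k) (E \ D)).card ≤ δ
              rw [this]; exact hδ
            · intro k hk hkD
              have hki : k ≠ i := by rintro rfl; exact hkD hiD
              show flip w.1 i k = g k ∨ flip w.1 i k = v0 k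
              rw [flip_ne w.1 hki]; exact hbet k hk hkD
            · intro l hl
              rcases List.mem_cons.1 hl with rfl | hl
              · refine ⟨w, List.mem_cons_self, rfl, hxv, fun k hk hkD => ⟨hout' k hk hkD, Or.inr ?_⟩⟩
                have hki : k ≠ i := by rintro rfl; exact hkD hiD
                show flip w.1 i k = w.1 k
                rw [flip_ne w.1 hki]
              · obtain ⟨r, hr, hr2, hrD, hrE⟩ := hL l hl
                refine ⟨r, List.mem_cons_of_mem _ hr, hr2, hrD, fun k hk hkD => ⟨(hrE k hk hkD).1, ?_⟩⟩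
                have hki : k ≠ i := by rintro rfl; exact hkD hiD
                show flip w.1 i k = g k ∨ flip w.1 i k = r.1 k
                rw [flip_ne w.1 hki]; exact (hrE k hk hkD).2
            · intro k hk
              show flip w.1 i k = flip xv i k
              by_cases hki : k = i
              · subst hki; rw [flip_same, flip_same, hxv k hk]
              · rw [flip_ne w.1 hki, flip_ne xv hki]; exact hxv k hk
            · intro S'' hS''
              exact hw S'' hS''

/-- A query: make one step in the direction `j`, then solve the directions `D` while walking to `g`. -/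
theorem query (D E : Finset (Fin n)) (hDE : D ⊆ E) (T q : ℕ) (hT : Solve D T) (c : Rec n)
    (P : List (Rec n)) (j : Fin n) (hjE : j ∈ E) (hjD : j ∉ D) (hjc : j ∈ c.2)
    (g : Fin n → Bool) (hgj : c.1 j ≠ g j)
    (H : ∀ (w : Rec n) (R : List (Rec n)), (∀ r ∈ c :: P, r ∈ R) → (∀ r ∈ R, Comp E r w) →
      (∀ i ∈ D, i ∉ w.2) → (∀ i ∈ E, i ∉ D → w.1 i ≠ g i → i ∉ w.2) →
      (∀ i ∈ E, i ∉ D → w.1 i = g i ∨ w.1 i = flip c.1 j i) → Win E q w R) :
    Win E (q + T + (E \ D).card) c P := by
  have hj : j ∈ E \ D := Finset.mem_sdiff.2 ⟨hjE, hjD⟩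
  have hpos : 0 < (E \ D).card := Finset.card_pos.2 ⟨j, hj⟩
  obtain ⟨δ, hδ⟩ : ∃ δ, (E \ D).card = δ + 1 := ⟨(E \ D).card - 1, by omega⟩
  rw [hδ]
  refine Or.inr ⟨j, hjE, hjc, fun S' hS' => ?_⟩
  refine travel D E hDE q (c :: P) g (flip c.1 j) H (T + δ) T δ (flip c.1 j, S') (c :: P) []
    (flip c.1 j) rfl (fun r hr => hr) hS' ?_ ?_ ?_ (fun _ _ => rfl) (fun S'' _ => hT _ _)
  · have hsub : ((E \ D).filter (fun k => (flip c.1 j) k ≠ g k)) ⊆ (E \ D).erase j := by
      intro k hk
      rw [Finset.mem_filter] at hk
      rw [Finset.mem_erase]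
      refine ⟨?_, hk.1⟩
      rintro rfl
      apply hk.2
      rw [flip_same]
      revert hgj
      cases c.1 k <;> cases g k <;> simp
    have := Finset.card_le_card hsub
    rw [Finset.card_erase_of_mem hj] at this
    show (Finset.filter (fun k => (flip c.1 j) k ≠ g k) (E \ D)).card ≤ δ
    omega
  · intro i _ _; exact Or.inr rfl
  · intro l hl; simp at hl

/-- The first query, at the start vertex. -/
theorem query_start (D E : Finset (Fin n)) (hDE : D ⊆ E) (T q : ℕ) (hT : Solve D T) (c : Rec n)
    (H : ∀ (w : Rec n) (R : List (Rec n)), (∀ r ∈ R, Comp E r w) →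
      (∀ i ∈ D, i ∉ w.2) → Win E q w R) :
    Win E (q + T) c [] := by
  have := travel D E hDE q [] c.1 c.1 (fun w R _ hR hD _ _ => H w R hR hD) (T + 0) T 0 c [] []
    c.1 rfl (by simp) (by simp) (by simp) (by simp) (by simp) (by simp)
    (fun S'' _ => hT _ _)
  simpa using this

end Pool.Agent.H141.PF
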