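import Pool.Agent.H141.PF.Rule
import Pool.Graph.R_pool_sql_team_seeded_ab47071d.TH628.PR.LP

/-!
# Linear programs whose polyhedron is a cube
-/

namespace Pool.Agent.H141.PF

open Finset Pool.Agent.TH628.PR

variable {n : ℕ}

/-- What a pivot rule has been told when it is at the vertex `x k` of the linear program, the most recent
information first: for each vertex visited so far the names of the tight rows and the pairs whose tight
row can be left with an improvement. -/
noncomputable def told (A : Fin n × Bool → Fin n → ℝ) (b : Fin n × Bool → ℝ) (c : Fin n → ℝ)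
    (x : ℕ → Fin n → ℝ) : ℕ → List ((Fin n → Bool) × Finset (Fin n))
  | 0 => [(sg A b (x 0), impr A b c (x 0))]
  | k + 1 => (sg A b (x (k + 1)), impr A b c (x (k + 1))) :: told A b c x k

section
variable {A : Fin n × Bool → Fin n → ℝ} {b : Fin n × Bool → ℝ}

theorem flip_eq (s : Fin n → Bool) (i : Fin n) : H454R3.flip s i = flip s i := rfl

/-- Coordinates with respect to the neighbours; a coordinate vanishes if the row is tight. -/
theorem coords' {s : Fin n → Bool} {x : Fin n → ℝ} (hx : VertexAt A b s x) (y : Fin n → Fin n → ℝ)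
    (hy : ∀ i, VertexAt A b (flip s i) (y i)) (z : Fin n → ℝ) :
    ∃ t : Fin n → ℝ, (∀ l, z l - x l = ∑ i, t i * (y i l - x l)) ∧
      (z ∈ poly A b → ∀ i, 0 ≤ t i) ∧ (∀ i, Tight A b z (i, s i) → t i = 0) := by
  classical
  have hoff : ∀ i j, j ≠ i → ∑ l, A (j, s j) l * (y i l - x l) = 0 := by
    intro i j hji
    have h1 : Tight A b x (j, s j) := (hx.2 j (s j)).2 rfl
    have h2 : Tight A b (y i) (j, s j) := ((hy i).2 j (s j)).2 (by rw [flip_ne _ hji])
    unfold Tight at h1 h2
    simp only [mul_sub, sum_sub_distrib]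
    rw [h1, h2, sub_self]
  have hon : ∀ i, ∑ l, A (i, s i) l * (y i l - x l) < 0 := by
    intro i
    have h1 : Tight A b x (i, s i) := (hx.2 i (s i)).2 rfl
    have h2 : ¬ Tight A b (y i) (i, s i) := by
      rw [(hy i).2 i (s i), flip_same]
      cases s i <;> simp
    have h3 : ∑ l, A (i, s i) l * y i l ≤ b (i, s i) := (hy i).1.1 (i, s i)
    unfold Tight at h1 h2
    simp only [mul_sub, sum_sub_distrib]
    rw [h1]
    have := lt_of_le_of_ne h3 h2
    linarith
  have hli : LinearIndependent ℝ (fun i : Fin n => (fun l => y i l - x l : Fin n → ℝ)) := by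
    rw [Fintype.linearIndependent_iff]
    intro g hg j
    have h1 : ∑ l, A (j, s j) l * (∑ i, g i • (fun l => y i l - x l : Fin n → ℝ)) l = 0 := by
      rw [hg]; simp
    have h2 : ∑ l, A (j, s j) l * (∑ i, g i • (fun l => y i l - x l : Fin n → ℝ)) l =
        ∑ i, g i * ∑ l, A (j, s j) l * (y i l - x l) := by
      simp only [Finset.sum_apply, Pi.smul_apply, smul_eq_mul, mul_sum]
      rw [sum_comm]
      refine sum_congr rfl fun i _ => sum_congr rfl fun l _ => ?_
      ring
    rw [h2, sum_eq_single j (fun i _ hij => by rw [hoff i j hij.symm, mul_zero])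
      (fun h => absurd (mem_univ j) h)] at h1
    rcases mul_eq_zero.1 h1 with h3 | h3
    · exact h3
    · exact absurd h3 (hon j).ne
  have hspan : z - x ∈ Submodule.span ℝ (Set.range fun i : Fin n =>
      (fun l => y i l - x l : Fin n → ℝ)) := by
    rw [hli.span_eq_top_of_card_eq_finrank' (by simp)]
    exact Submodule.mem_top
  obtain ⟨t, ht⟩ := (Submodule.mem_span_range_iff_exists_fun ℝ).1 hspan
  have hco : ∀ l, z l - x l = ∑ i, t i * (y i l - x l) := by
    intro l
    have := congrFun ht l
    simp only [Finset.sum_apply, Pi.smul_apply, smul_eq_mul, Pi.sub_apply] at this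
    exact this.symm
  have hval : ∀ j, ∑ l, A (j, s j) l * z l - b (j, s j) =
      t j * ∑ l, A (j, s j) l * (y j l - x l) := by
    intro j
    have h1 : Tight A b x (j, s j) := (hx.2 j (s j)).2 rfl
    unfold Tight at h1
    have h2 : ∑ l, A (j, s j) l * z l - b (j, s j) = ∑ l, A (j, s j) l * (z l - x l) := by
      simp only [mul_sub, sum_sub_distrib]
      rw [h1]
    rw [h2]
    have h3 : ∑ l, A (j, s j) l * (z l - x l) =
        ∑ i, t i * ∑ l, A (j, s j) l * (y i l - x l) := by
      simp only [hco, mul_sum]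
      rw [sum_comm]
      refine sum_congr rfl fun i _ => sum_congr rfl fun l _ => ?_
      ring
    rw [h3, sum_eq_single j (fun i _ hij => by rw [hoff i j hij.symm, mul_zero])
      (fun h => absurd (mem_univ j) h)]
  refine ⟨t, hco, ?_, ?_⟩
  · intro hz j
    by_contra hneg
    push Not at hneg
    have h1 := hval j
    have h2 : ∑ l, A (j, s j) l * z l ≤ b (j, s j) := hz (j, s j)
    have h3 := mul_pos_of_neg_of_neg hneg (hon j)
    linarith
  · intro j hz
    have h1 := hval j
    have h2 : ∑ l, A (j, s j) l * z l = b (j, s j) := hz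
    rw [h2, sub_self] at h1
    rcases mul_eq_zero.1 h1.symm with h3 | h3
    · exact h3
    · exact absurd h3 (hon j).ne

/-- The values of a linear objective function at the vertices of a cube. -/
theorem uni_of_cube {V : (Fin n → Bool) → Fin n → ℝ} (hV : ∀ s, VertexAt A b s (V s))
    (c : Fin n → ℝ) : Uni (fun s => ∑ l, c l * V s l) := by
  have key : ∀ (c : Fin n → ℝ) (U : Finset (Fin n)) (x z : Fin n → Bool),
      (∀ i ∈ U, ∑ l, c l * V (flip x i) l ≤ ∑ l, c l * V x l) → (∀ i, i ∉ U → z i = x i) →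
      ∑ l, c l * V z l ≤ ∑ l, c l * V x l := by
    intro c U x z hx hz
    obtain ⟨t, h1, h2, h3⟩ := coords' (hV x) (fun i => V (flip x i)) (fun i => hV _) (V z)
    have h4 : ∑ l, c l * V z l - ∑ l, c l * V x l =
        ∑ i, t i * (∑ l, c l * V (flip x i) l - ∑ l, c l * V x l) := by
      rw [← sum_sub_distrib]
      simp only [← mul_sub, h1, ← sum_sub_distrib, mul_sum]
      rw [sum_comm]
      refine sum_congr rfl fun i _ => sum_congr rfl fun l _ => ?_
      ring
    have h5 : ∑ i, t i * (∑ l, c l * V (flip x i) l - ∑ l, c l * V x l) ≤ 0 := by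
      apply sum_nonpos
      intro i _
      by_cases hi : i ∈ U
      · exact mul_nonpos_of_nonneg_of_nonpos (h2 (hV z).1.1 i) (sub_nonpos.2 (hx i hi))
      · rw [h3 i (by rw [← hz i hi]; exact ((hV z).2 i (z i)).2 rfl), zero_mul]
    linarith
  refine ⟨key c, fun U x z hx hz => ?_⟩
  have := key (fun l => - c l) U x z (by
    intro i hi
    have := hx i hi
    simp only [neg_mul, sum_neg_distrib]
    linarith) hz
  simp only [neg_mul, sum_neg_distrib] at this
  linarith

/-- From the abstract walk to the linear program. -/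
theorem lp_walk (hc : IsCube A b) (c : Fin n → ℝ) {T : ℕ} (rule : List (Rec n) → Fin n)
    (hrule : ∀ f : (Fin n → Bool) → ℝ, Uni f → ∀ x₀ : Fin n → Bool,
      ∃ (L : ℕ) (w : ℕ → (Fin n → Bool)), L ≤ T ∧ w 0 = x₀ ∧
        (∀ t < L, rule (seen f w t) ∈ improving f (w t) ∧ w (t + 1) = flip (w t) (rule (seen f w t))) ∧
        improving f (w L) = ∅) (x₀ : Fin n → ℝ) (hx₀ : x₀ ∈ (poly A b).extremePoints ℝ) :
    ∃ (L : ℕ) (x : ℕ → Fin n → ℝ), L ≤ T ∧ x 0 = x₀ ∧
      (∀ t < L, rule (told A b c x t) ∈ impr A b c (x t) ∧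
        Nb A b (x t) (rule (told A b c x t)) (x (t + 1))) ∧
      ∀ y ∈ poly A b, ∑ l, c l * y l ≤ ∑ l, c l * x L l := by
  classical
  choose V hV using hc.2
  have himp : ∀ s, impr A b c (V s) = improving (fun s => ∑ l, c l * V s l) s := by
    intro s
    ext i
    unfold impr improving
    rw [mem_filter, mem_filter]
    refine and_congr_right fun _ => ?_
    constructor
    · rintro ⟨y, h1, h2⟩
      rw [nb_iff hc (hV s)] at h1
      rw [unique_vertex hc (hV (H454R3.flip s i)) h1] at h2
      exact h2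
    · intro h
      exact ⟨V (H454R3.flip s i), (nb_iff hc (hV s) i _).2 (hV _), h⟩
  obtain ⟨s₀, hs₀⟩ := hc.1 x₀ hx₀
  obtain ⟨L, w, hL, h0, h1, h2⟩ := hrule _ (uni_of_cube hV c) s₀
  have htold : ∀ t, told A b c (fun k => V (w k)) t = seen (fun s => ∑ l, c l * V s l) w t := by
    intro t
    induction t with
    | zero =>
      show [(sg A b (V (w 0)), impr A b c (V (w 0)))] = _
      rw [(hV _).sg, himp]; rfl
    | succ t ih =>
      show (sg A b (V (w (t + 1))), impr A b c (V (w (t + 1)))) :: told A b c (fun k => V (w k)) t = _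
      rw [(hV _).sg, himp, ih]; rfl
  refine ⟨L, fun k => V (w k), hL, ?_, ?_, ?_⟩
  · show V (w 0) = x₀
    rw [h0]; exact unique_vertex hc hs₀ (hV s₀)
  · intro t ht
    rw [htold t]
    refine ⟨by rw [himp]; exact (h1 t ht).1, ?_⟩
    rw [nb_iff hc (hV (w t)), flip_eq, ← (h1 t ht).2]
    exact hV _
  · exact optimal hc (hV (w L)) (by rw [himp, h2])

end

end Pool.Agent.H141.PF
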