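import Pool.Agent.H141.PF.Cube

/-!
# From a strategy of the record game to one deterministic pivot rule
-/

namespace Pool.Agent.H141.PF

variable {n : ℕ}

/-- What a pivot rule has seen after `t` steps: the visited vertices with their improving directions,
the current vertex first. -/
noncomputable def seen (f : (Fin n → Bool) → ℝ) (w : ℕ → (Fin n → Bool)) : ℕ → List (Rec n)
  | 0 => [(w 0, improving f (w 0))]
  | t + 1 => (w (t + 1), improving f (w (t + 1))) :: seen f w t

/-- `i` is a good move with `q` further steps. -/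
def Good (c : Rec n) (P : List (Rec n)) (q : ℕ) (i : Fin n) : Prop :=
  i ∈ c.2 ∧ ∀ S' : Finset (Fin n), (∀ r ∈ c :: P, Comp Finset.univ r (flip c.1 i, S')) →
    Win Finset.univ q (flip c.1 i, S') (c :: P)

open Classical in
/-- The rule extracted from the game. -/
noncomputable def theRule (i₀ : Fin n) : List (Rec n) → Fin n
  | [] => i₀
  | c :: P => if h : ∃ q, ∃ i, Good c P q i then (Nat.find_spec h).choose else i₀

open Classical in
theorem theRule_spec (i₀ : Fin n) {q : ℕ} {c : Rec n} {P : List (Rec n)}
    (hW : Win Finset.univ q c P) (hc : c.2.Nonempty) :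
    ∃ q', q' + 1 ≤ q ∧ Good c P q' (theRule i₀ (c :: P)) := by
  cases q with
  | zero =>
    obtain ⟨i, hi⟩ := hc
    exact absurd hi (hW i (Finset.mem_univ _))
  | succ q =>
    rcases hW with hW | ⟨i, _, hi, hW⟩
    · obtain ⟨i, hi⟩ := hc
      exact absurd hi (hW i (Finset.mem_univ _))
    · have h : ∃ q, ∃ i, Good c P q i := ⟨q, i, hi, hW⟩
      refine ⟨Nat.find h, Nat.succ_le_succ (Nat.find_min' h ⟨i, hi, hW⟩), ?_⟩
      have e : theRule i₀ (c :: P) = (Nat.find_spec h).choose := by
        simp only [theRule]; rw [dif_pos h]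
      rw [e]
      exact (Nat.find_spec h).choose_spec

/-- One step of the walk following the rule. -/
noncomputable def stepWalk (f : (Fin n → Bool) → ℝ) (rule : List (Rec n) → Fin n)
    (s : Rec n × List (Rec n)) : Rec n × List (Rec n) :=
  ((flip s.1.1 (rule (s.1 :: s.2)), improving f (flip s.1.1 (rule (s.1 :: s.2)))), s.1 :: s.2)

theorem walk_finishes (i₀ : Fin n) {f : (Fin n → Bool) → ℝ} (hf : Uni f) :
    ∀ (q : ℕ) (c : Rec n) (P : List (Rec n)), Win Finset.univ q c P → c.2 = improving f c.1 →
      (∀ r ∈ P, r.2 = improving f r.1 ∧ f r.1 < f c.1) →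
      ∃ L ≤ q, (∀ t < L, theRule i₀ (((stepWalk f (theRule i₀))^[t] (c, P)).1 ::
          ((stepWalk f (theRule i₀))^[t] (c, P)).2) ∈ ((stepWalk f (theRule i₀))^[t] (c, P)).1.2) ∧
        ((stepWalk f (theRule i₀))^[L] (c, P)).1.2 = ∅ := by
  intro q
  induction q with
  | zero =>
    intro c P hW hc hP
    refine ⟨0, le_rfl, by simp, ?_⟩
    ext i; simp; exact hW i (Finset.mem_univ _)
  | succ q ih =>
    intro c P hW hc hP
    by_cases he : c.2 = ∅
    · exact ⟨0, Nat.zero_le _, by simp, by simpa using he⟩
    · obtain ⟨q', hq', hG⟩ := theRule_spec i₀ hW (Finset.nonempty_iff_ne_empty.2 he)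
      set i := theRule i₀ (c :: P) with hi
      have hlt : f c.1 < f (flip c.1 i) := by
        have := hG.1
        rw [hc] at this
        exact mem_improving.1 this
      have hcomp : ∀ r ∈ c :: P, Comp Finset.univ r (flip c.1 i, improving f (flip c.1 i)) := by
        intro r hr
        rcases List.mem_cons.1 hr with rfl | hr
        · have := hf.comp hlt
          rw [← hc] at this
          exact this
        · obtain ⟨h1, h2⟩ := hP r hr
          have := hf.comp (h2.trans hlt)
          rw [← h1] at this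
          exact this
      have hW' := (hG.2 _ hcomp).mono (Nat.le_of_succ_le_succ hq')
      obtain ⟨L, hL, h1, h2⟩ := ih (flip c.1 i, improving f (flip c.1 i)) (c :: P) hW' rfl (by
        intro r hr
        rcases List.mem_cons.1 hr with rfl | hr
        · exact ⟨hc, hlt⟩
        · exact ⟨(hP r hr).1, (hP r hr).2.trans hlt⟩)
      have hs : stepWalk f (theRule i₀) (c, P) = ((flip c.1 i, improving f (flip c.1 i)), c :: P) := rfl
      refine ⟨L + 1, Nat.succ_le_succ hL, ?_, ?_⟩
      · intro t ht
        cases t with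
        | zero => exact hG.1
        | succ t =>
          rw [Function.iterate_succ_apply, hs]
          exact h1 t (Nat.lt_of_succ_lt_succ ht)
      · rw [Function.iterate_succ_apply, hs]; exact h2

/-- If all starts can be solved in `T` steps then there is one deterministic rule. -/
theorem exists_rule (hn : 0 < n) {T : ℕ} (hT : Solve (Finset.univ : Finset (Fin n)) T) :
    ∃ rule : List (Rec n) → Fin n, ∀ f : (Fin n → Bool) → ℝ, Uni f → ∀ x₀ : Fin n → Bool,
      ∃ (L : ℕ) (w : ℕ → (Fin n → Bool)), L ≤ T ∧ w 0 = x₀ ∧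
        (∀ t < L, rule (seen f w t) ∈ improving f (w t) ∧ w (t + 1) = flip (w t) (rule (seen f w t))) ∧
        improving f (w L) = ∅ := by
  let i₀ : Fin n := ⟨0, hn⟩
  refine ⟨theRule i₀, fun f hf x₀ => ?_⟩
  obtain ⟨L, hL, h1, h2⟩ := walk_finishes i₀ hf T (x₀, improving f x₀) [] (hT _ _) rfl (by simp)
  set s : ℕ → Rec n × List (Rec n) :=
    fun t => (stepWalk f (theRule i₀))^[t] ((x₀, improving f x₀), []) with hs
  have hs1 : ∀ t, s (t + 1) = stepWalk f (theRule i₀) (s t) := by
    intro t; simp only [hs]; rw [Function.iterate_succ_apply']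
  let w : ℕ → (Fin n → Bool) := fun t => (s t).1.1
  have himp : ∀ t, (s t).1.2 = improving f (w t) := by
    intro t
    cases t with
    | zero => rfl
    | succ t => simp only [w]; rw [hs1 t]; rfl
  have hseen : ∀ t, seen f w t = (s t).1 :: (s t).2 := by
    intro t
    induction t with
    | zero => rfl
    | succ t ih =>
      rw [seen, ih]
      have e : (s (t + 1)).2 = (s t).1 :: (s t).2 := by rw [hs1 t]; rfl
      rw [e, ← himp (t + 1)]
  refine ⟨L, w, hL, rfl, fun t ht => ⟨?_, ?_⟩, ?_⟩
  · rw [hseen t, ← himp t]; exact h1 t ht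
  · rw [hseen t]
    simp only [w]
    rw [hs1 t]; rfl
  · rw [← himp L]; exact h2

end Pool.Agent.H141.PF
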