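import Pool.Agent.H141.PF.Check
import Pool.Agent.H141.PF.Rule

/-!
# From a certificate to a bound for all dimensions
-/

namespace Pool.Agent.H141.PF

variable {n : ℕ}

theorem solve_empty : Solve (∅ : Finset (Fin n)) 0 := by
  intro x S i hi; simp at hi

theorem solve_insert {I : Finset (Fin n)} {a : Fin n} (ha : a ∉ I) {T : ℕ} (hT : Solve I T) :
    Solve (insert a I) (2 * T + 1) := by
  intro x S
  have hIE : I ⊆ insert a I := Finset.subset_insert a I
  have e : 2 * T + 1 = (T + 1) + T := by ring
  rw [e]
  refine query_start I (insert a I) hIE T (T + 1) hT (x, S) ?_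
  intro w R hR hw
  by_cases haw : a ∈ w.2
  · have hcard : (insert a I \ I).card = 1 := by
      have : insert a I \ I = {a} := by
        ext i
        simp only [Finset.mem_sdiff, Finset.mem_insert, Finset.mem_singleton]
        constructor
        · rintro ⟨h1 | h1, h2⟩
          · exact h1
          · exact absurd h1 h2
        · rintro rfl; exact ⟨Or.inl rfl, ha⟩
      rw [this]; simp
    have := query I (insert a I) hIE T 0 hT w R a (Finset.mem_insert_self _ _) ha haw
      (flip w.1 a) (by rw [flip_same]; cases w.1 a <;> simp) (by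
        intro w2 R2 h1 h2 h3 _ _ i hi
        rcases Finset.mem_insert.1 hi with rfl | hi
        · obtain ⟨x', hx1, _, hx3, hx4⟩ := h2 w (h1 w List.mem_cons_self)
          rcases Finset.mem_insert.1 hx1 with rfl | hx1
          · exact hx4
          · exact absurd hx3 (hw _ hx1)
        · exact h3 i hi)
    rw [hcard] at this
    simpa [Nat.add_comm] using this
  · apply Win.done
    intro i hi
    rcases Finset.mem_insert.1 hi with rfl | hi
    · exact haw
    · exact hw i hi

theorem solve_two_pow (D : Finset (Fin n)) : Solve D (2 ^ D.card - 1) := by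
  induction D using Finset.induction_on with
  | empty => simpa using solve_empty
  | insert a I ha ih =>
    rw [Finset.card_insert_of_notMem ha]
    have := solve_insert ha ih
    have e : 2 * (2 ^ I.card - 1) + 1 = 2 ^ (I.card + 1) - 1 := by
      have : 1 ≤ 2 ^ I.card := Nat.one_le_two_pow
      rw [pow_succ]; omega
    rw [← e]; exact this

/-- The root lemmas: for each set of improving directions of the first record. -/
def rootsOK (C : Cfg) (q1 : ℕ) (roots : List (ℕ × ℕ)) : Bool :=
  (List.range (2 ^ C.k)).all (fun S => S == 0 ||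
    match C.tree.get? (roots.getD S (0, 0)).1, C.perms.get? (roots.getD S (0, 0)).2 with
    | some c, some p => c.recs.isEmpty && c.S == look C.k p.2 S && decide (c.q ≤ q1)
    | _, _ => false)

/-- A certificate gives a bound in all dimensions. -/
theorem solve_bound (C : Cfg) (hC : tablesOK C = true) (hP : C.perms.all (permOK C.k) = true)
    (hL : C.tree.all (lemOK C) = true) (hcost : ∀ s, 0 < C.cost s) (q1 : ℕ) (roots : List (ℕ × ℕ))
    (hroots : rootsOK C q1 roots = true) (lam K : ℝ) (hlam : 0 < lam) (hK : 0 < K)
    (hsk : C.smax < C.k)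
    (hs : ∀ s ≤ C.smax, lam ^ s * C.cost 0 ≤ C.cost s)
    (hq : ((q1 + C.cost 0 : ℕ) : ℝ) ≤ C.cost 0 * lam ^ C.k)
    (hbase : ∀ d < C.k, (2 : ℝ) ^ d - 1 + C.k ≤ K * lam ^ d) :
    ∀ (d : ℕ) (D : Finset (Fin n)), D.card = d → ∃ T : ℕ, Solve D T ∧ (T : ℝ) + C.k ≤ K * lam ^ d := by
  intro d
  induction d using Nat.strong_induction_on with
  | _ d ih =>
  intro D hD
  by_cases hdk : d < C.k
  · refine ⟨2 ^ D.card - 1, solve_two_pow D, ?_⟩
    rw [hD]
    have h1 := hbase d hdk
    have h2 : (1 : ℕ) ≤ 2 ^ d := Nat.one_le_two_pow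
    rw [Nat.cast_sub h2]; push_cast; linarith
  · push Not at hdk
    obtain ⟨d', rfl⟩ : ∃ d', d = d' + C.k := ⟨d - C.k, by omega⟩
    obtain ⟨I, hID, hIcard⟩ := Finset.exists_subset_card_eq (s := D) (n := d') (by omega)
    have hcard : (D \ I).card = C.k := by
      rw [Finset.card_sdiff_of_subset hID]; omega
    let e : Fin C.k → Fin n := (D \ I).orderEmbOfFin hcard
    have he : Function.Injective e := ((D \ I).orderEmbOfFin hcard).injective
    have hemem : ∀ i, e i ∈ D \ I := fun i => Finset.orderEmbOfFin_mem _ hcard i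
    have heI : ∀ i, e i ∉ I := fun i => (Finset.mem_sdiff.1 (hemem i)).2
    have hE : D = I ∪ Finset.univ.image e := by
      have h1 : Finset.univ.image e = D \ I := by
        apply Finset.eq_of_subset_of_card_le
        · intro x hx
          obtain ⟨i, _, rfl⟩ := Finset.mem_image.1 hx
          exact hemem i
        · rw [Finset.card_image_of_injective _ he, hcard]; simp
      rw [h1, Finset.union_sdiff_of_subset hID]
    have hc0 : (0 : ℝ) < C.cost 0 := by exact_mod_cast hcost 0
    set z : ℝ := K * lam ^ d' / C.cost 0 with hz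
    have hz0 : 0 < z := by positivity
    have hzc : C.cost 0 * z = K * lam ^ d' := by rw [hz]; field_simp
    have hS : ∀ s ≤ C.smax, ∀ F : Finset (Fin n), F.card = I.card + s →
        ∃ T : ℕ, Solve F T ∧ (T : ℝ) + C.k ≤ C.cost s * z := by
      intro s hs' F hF
      obtain ⟨T, hT, hT'⟩ := ih (d' + s) (by omega) F (by rw [hF, hIcard])
      refine ⟨T, hT, hT'.trans ?_⟩
      rw [pow_add]
      calc K * (lam ^ d' * lam ^ s) = (K * lam ^ d') * lam ^ s := by ring
        _ = (C.cost 0 * z) * lam ^ s := by rw [hzc]
        _ = (lam ^ s * C.cost 0) * z := by ring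
        _ ≤ C.cost s * z := mul_le_mul_of_nonneg_right (hs s hs') hz0.le
    obtain ⟨T, hT, hT'⟩ := hS 0 (Nat.zero_le _) I (by simp)
    set N1 : ℕ := ⌊(q1 : ℝ) * z⌋₊ with hN1
    have hN1a : (q1 : ℝ) * z < N1 + 1 := Nat.lt_floor_add_one _
    have hN1b : (N1 : ℝ) ≤ q1 * z := Nat.floor_le (by positivity)
    refine ⟨N1 + T, ?_, ?_⟩
    · intro x S
      refine query_start I D hID T N1 hT (x, S) ?_
      intro w R hR hw
      by_cases hS0 : mk e w.2 = 0
      · apply Win.done
        intro y hy
        by_cases hyI : y ∈ I
        · exact hw y hyI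
        · rw [hE, Finset.mem_union] at hy
          rcases hy with hy | hy
          · exact absurd hy hyI
          · obtain ⟨i, _, rfl⟩ := Finset.mem_image.1 hy
            have := mk_testBit e w.2 i
            rw [hS0, Nat.zero_testBit] at this
            exact of_decide_eq_false this.symm
      · simp only [rootsOK, List.all_eq_true, List.mem_range, Bool.or_eq_true, beq_iff_eq] at hroots
        have h1 := hroots (mk e w.2) (mk_lt _ _)
        rcases h1 with h1 | h1
        · exact absurd h1 hS0
        split at h1
        swap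
        · exact Bool.noConfusion h1
        rename_i c p hc hp
        simp only [Bool.and_eq_true, beq_iff_eq, decide_eq_true_eq, List.isEmpty_iff] at h1
        obtain ⟨⟨hrec, hcS⟩, hcq⟩ := h1
        obtain ⟨π, hπ, hπs⟩ := perm_spec (BT.of_get? hP hp)
        have hπsurj : Function.Surjective π := Finite.surjective_of_injective hπ
        refine lem_sound C hC hP hL hcost z hz0.le D I hS c.q c ⟨_, hc⟩ rfl (e ∘ π) (he.comp hπ)
          (fun i => heI _) ?_ w R hw ?_ ?_ N1 ?_
        · conv_lhs => rw [hE]
          congr 1
          ext y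
          simp only [Finset.mem_image, Finset.mem_univ, true_and, Function.comp]
          constructor
          · rintro ⟨i, rfl⟩
            obtain ⟨i', rfl⟩ := hπsurj i
            exact ⟨i', rfl⟩
          · rintro ⟨i, rfl⟩; exact ⟨π i, rfl⟩
        · rw [hcS]
          apply eq_of_bits (mk_lt _ _) (look_lt _ _ _)
          intro i
          rw [mk_testBit, hπs _ (mk_lt _ _), mk_testBit]; rfl
        · rw [hrec]; intro r hr; simp at hr
        · have : (c.q : ℝ) ≤ q1 := by exact_mod_cast hcq
          have := mul_le_mul_of_nonneg_right this hz0.le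
          linarith
    · push_cast
      have h2 : (C.cost 0 : ℝ) * z + q1 * z ≤ K * lam ^ (d' + C.k) := by
        have h3 := mul_le_mul_of_nonneg_right hq hz0.le
        push_cast at h3
        calc (C.cost 0 : ℝ) * z + q1 * z = (q1 + C.cost 0) * z := by ring
          _ ≤ C.cost 0 * lam ^ C.k * z := h3
          _ = (C.cost 0 * z) * lam ^ C.k := by ring
          _ = K * lam ^ d' * lam ^ C.k := by rw [hzc]
          _ = K * lam ^ (d' + C.k) := by rw [pow_add]; ring
      linarith

end Pool.Agent.H141.PF
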